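import Mathlib

set_option autoImplicit false

namespace Pool.Agent.Results.MP_259ac5_co.SevenPoints

/-- A lattice point viewed in the real plane. -/
def emb (z : ℤ × ℤ) : ℝ × ℝ := ((z.1 : ℝ), (z.2 : ℝ))

/-- `F = conv(F) ∩ ℤ²`. -/
def IsConvexLatticeSet (F : Finset (ℤ × ℤ)) : Prop :=
  ∀ z : ℤ × ℤ, z ∈ F ↔ emb z ∈ convexHull ℝ (emb '' (F : Set (ℤ × ℤ)))

/-- `F` is disjoint from every line through two distinct points of `P`. -/
def MissesLines (P F : Finset (ℤ × ℤ)) : Prop :=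
  ∀ p ∈ P, ∀ q ∈ P, p ≠ q → ∀ z ∈ F, emb z ∉ affineSpan ℝ {emb p, emb q}

/-- The number of points of `F` on the set `l`. -/
noncomputable def xray (F : Finset (ℤ × ℤ)) (l : AffineSubspace ℝ (ℝ × ℝ)) : ℕ :=
  {z : ℤ × ℤ | z ∈ F ∧ emb z ∈ l}.ncard

def PP : Fin 7 → ℤ × ℤ := ![(0, 0),
    (0, -14248888842803472000),
    (755622893178972000, 107946127596996000),
    (-457533127979928000, -522895003405632000),
    (797937775196994432, 911928885939422208),
    (-383623930383170400, -54803418626167200),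
    (0, 2374814807133912000)]

def AA : Fin 7 → ℤ × ℤ := ![(-906747471814766400, 259070706232790400),
    (-1173437904701462400, 1788095854783180800),
    (-2072206826169480000, 532853183872152000),
    (-749565795838860000, 892340233141500000),
    (-9235390916631880000, 4221892990460288000),
    (-697498055242128000, 398570317281216000),
    (-3562222210700868000, 3562222210700868000)]

def BB : Fin 7 → ℤ × ℤ := ![(-3022491572715888000, 863569020775968000),
    (-984298242430503000, 1499883036084576000),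
    (-1062594693532929375, 273238635479896125),
    (-2397649564894815000, 2854344720112875000),
    (-721723747464720000, 329930855983872000),
    (-9974222189962430400, 5699555537121388800),
    (-712444442140173600, 712444442140173600)]

def fA : Fin 7 → ℤ × ℤ := ![(79, -475),
    (23, 24),
    (-25, -83),
    (84, 29),
    (-16, -23),
    (371, -9),
    (89, 237)]

def fB : Fin 7 → ℤ × ℤ := ![(-103, -200),
    (653, 309),
    (-109, -464),
    (127, 171),
    (2, -3),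
    (5, 43),
    (1413, 149)]

def cr (o a b : ℤ × ℤ) : ℤ := (a.1 - o.1) * (b.2 - o.2) - (a.2 - o.2) * (b.1 - o.1)
def dt (f a : ℤ × ℤ) : ℤ := f.1 * a.1 + f.2 * a.2

lemma P_inj : Function.Injective PP := by decide +kernel
lemma A_inj : Function.Injective AA := by decide +kernel
lemma B_inj : Function.Injective BB := by decide +kernel
lemma AB_ne : ∀ i j, AA i ≠ BB j := by decide +kernel
lemma col : ∀ k i : Fin 7, cr (PP k) (AA i) (BB (i + k)) = 0 ∧ AA i ≠ PP k ∧ BB (i + k) ≠ PP k := by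
  decide +kernel
lemma expA : ∀ i j, (j ≠ i → dt (fA i) (AA j) < dt (fA i) (AA i)) ∧
    dt (fA i) (BB j) < dt (fA i) (AA i) := by decide +kernel
lemma expB : ∀ i j, (j ≠ i → dt (fB i) (BB j) < dt (fB i) (BB i)) ∧
    dt (fB i) (AA j) < dt (fB i) (BB i) := by decide +kernel
lemma side : ∀ k m, k ≠ m →
    (∀ i, 0 < cr (PP k) (PP m) (AA i) ∧ 0 < cr (PP k) (PP m) (BB i)) ∨
    (∀ i, 0 < cr (PP m) (PP k) (AA i) ∧ 0 < cr (PP m) (PP k) (BB i)) := by decide +kernel
lemma bnd : ∀ i, (|(AA i).1| ≤ 10 ^ 20 ∧ |(AA i).2| ≤ 10 ^ 20) ∧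
    (|(BB i).1| ≤ 10 ^ 20 ∧ |(BB i).2| ≤ 10 ^ 20) := by decide +kernel

def VV : Set (ℝ × ℝ) := emb '' (Set.range AA ∪ Set.range BB)

lemma hull_lt (u v c : ℝ) (S : Set (ℝ × ℝ)) (h : ∀ w ∈ S, u * w.1 + v * w.2 < c) :
    ∀ w ∈ convexHull ℝ S, u * w.1 + v * w.2 < c := by
  apply convexHull_min h
  have : IsLinearMap ℝ (fun w : ℝ × ℝ => u * w.1 + v * w.2) :=
    ⟨fun x y => by simp; ring, fun a x => by simp; ring⟩
  exact convex_halfSpace_lt this c

lemma hull_exposed (u v : ℝ) (b : ℝ × ℝ) (S : Set (ℝ × ℝ))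
    (h : ∀ w ∈ S, w = b ∨ u * w.1 + v * w.2 < u * b.1 + v * b.2) :
    ∀ w ∈ convexHull ℝ S, w = b ∨ u * w.1 + v * w.2 < u * b.1 + v * b.2 := by
  apply convexHull_min h
  intro x hx y hy s t hs ht hst
  change x = b ∨ u * x.1 + v * x.2 < u * b.1 + v * b.2 at hx
  change y = b ∨ u * y.1 + v * y.2 < u * b.1 + v * b.2 at hy
  change s • x + t • y = b ∨ u * (s * x.1 + t * y.1) + v * (s * x.2 + t * y.2) < u * b.1 + v * b.2
  obtain rfl : t = 1 - s := by linarith
  rcases hx with rfl | hx <;> rcases hy with rfl | hy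
  · left; rw [← add_smul]; simp
  · rcases ht.eq_or_lt with h0 | h0
    · left
      have : s = 1 := by linarith
      subst this; simp
    · right; nlinarith
  · rcases hs.eq_or_lt with h0 | h0
    · left; subst h0; simp
    · right; nlinarith
  · right
    rcases hs.eq_or_lt with h0 | h0
    · subst h0; linarith
    · nlinarith

lemma G_fin : {z : ℤ × ℤ | emb z ∈ convexHull ℝ VV}.Finite := by
  have key : ∀ u v : ℝ, |u| + |v| ≤ 1 → ∀ w ∈ convexHull ℝ VV, u * w.1 + v * w.2 < 10 ^ 20 + 1 := by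
    intro u v huv
    apply hull_lt
    have aux : ∀ z : ℤ × ℤ, |z.1| ≤ 10 ^ 20 ∧ |z.2| ≤ 10 ^ 20 →
        u * (emb z).1 + v * (emb z).2 < 10 ^ 20 + 1 := by
      rintro z ⟨h1, h2⟩
      have h1' : |(z.1 : ℝ)| ≤ 10 ^ 20 := by exact_mod_cast h1
      have h2' : |(z.2 : ℝ)| ≤ 10 ^ 20 := by exact_mod_cast h2
      have e1 := le_abs_self (u * z.1)
      have e2 := le_abs_self (v * z.2)
      rw [abs_mul] at e1 e2
      have e3 := mul_le_mul_of_nonneg_left h1' (abs_nonneg u)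
      have e4 := mul_le_mul_of_nonneg_left h2' (abs_nonneg v)
      simp only [emb]
      nlinarith
    rintro _ ⟨z, ⟨i, rfl⟩ | ⟨i, rfl⟩, rfl⟩
    · exact aux _ (bnd i).1
    · exact aux _ (bnd i).2
  apply Set.Finite.subset ((Set.finite_Icc (-(10 : ℤ) ^ 21) (10 ^ 21)).prod
    (Set.finite_Icc (-(10 : ℤ) ^ 21) (10 ^ 21)))
  intro z hz
  have h1 := key 1 0 (by simp) _ hz
  have h2 := key (-1) 0 (by simp) _ hz
  have h3 := key 0 1 (by simp) _ hz
  have h4 := key 0 (-1) (by simp) _ hz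
  simp only [emb] at h1 h2 h3 h4
  refine ⟨⟨?_, ?_⟩, ⟨?_, ?_⟩⟩
  · have : (-(10 : ℝ) ^ 21) ≤ z.1 := by linarith
    exact_mod_cast this
  · have : (z.1 : ℝ) ≤ 10 ^ 21 := by linarith
    exact_mod_cast this
  · have : (-(10 : ℝ) ^ 21) ≤ z.2 := by linarith
    exact_mod_cast this
  · have : (z.2 : ℝ) ≤ 10 ^ 21 := by linarith
    exact_mod_cast this

noncomputable def G : Finset (ℤ × ℤ) := G_fin.toFinset

lemma mem_G (z : ℤ × ℤ) : z ∈ G ↔ emb z ∈ convexHull ℝ VV := by simp [G]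

lemma emb_inj : Function.Injective emb := by
  intro a b h
  simp only [emb, Prod.mk.injEq, Int.cast_inj] at h
  exact Prod.ext h.1 h.2

lemma A_mem (i : Fin 7) : AA i ∈ G :=
  (mem_G _).2 (subset_convexHull ℝ _ ⟨_, Or.inl ⟨i, rfl⟩, rfl⟩)
lemma B_mem (i : Fin 7) : BB i ∈ G :=
  (mem_G _).2 (subset_convexHull ℝ _ ⟨_, Or.inr ⟨i, rfl⟩, rfl⟩)

lemma conv_remove (C f : Fin 7 → ℤ × ℤ)
    (h : ∀ i, ∀ z ∈ Set.range AA ∪ Set.range BB, z = C i ∨ dt (f i) z < dt (f i) (C i)) :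
    IsConvexLatticeSet (G \ Finset.univ.image C) := by
  intro z
  refine ⟨fun hz => subset_convexHull ℝ _ ⟨z, hz, rfl⟩, fun hz => ?_⟩
  have hsub : emb '' ((G \ Finset.univ.image C : Finset (ℤ × ℤ)) : Set (ℤ × ℤ)) ⊆
      convexHull ℝ VV := by
    rintro _ ⟨y, hy, rfl⟩
    exact (mem_G y).1 (Finset.mem_sdiff.1 hy).1
  refine Finset.mem_sdiff.2 ⟨(mem_G z).2 (convexHull_min hsub (convex_convexHull ℝ _) hz), ?_⟩
  intro hz2
  obtain ⟨i, -, rfl⟩ := Finset.mem_image.1 hz2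
  have e := hull_exposed (f i).1 (f i).2 (emb (C i)) VV (by
    rintro _ ⟨y, hy, rfl⟩
    rcases h i y hy with rfl | h1
    · exact Or.inl rfl
    · right
      simp only [emb]
      simp only [dt] at h1
      exact_mod_cast h1)
  have := hull_lt (f i).1 (f i).2 ((f i).1 * (emb (C i)).1 + (f i).2 * (emb (C i)).2) _ (by
    rintro _ ⟨y, hy, rfl⟩
    have hy' := Finset.mem_sdiff.1 hy
    rcases e _ ((mem_G y).1 hy'.1) with h1 | h1
    · exact absurd (Finset.mem_image.2 ⟨i, Finset.mem_univ _, (emb_inj h1).symm⟩) hy'.2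
    · exact h1) _ hz
  exact lt_irrefl _ this

lemma miss (p q : ℤ × ℤ) (h : ∀ i, 0 < cr p q (AA i) ∧ 0 < cr p q (BB i)) :
    ∀ z ∈ G, emb z ∉ affineSpan ℝ {emb p, emb q} := by
  intro z hz hl
  have := hull_lt ((q.2 : ℝ) - p.2) (-((q.1 : ℝ) - p.1))
    (((q.2 : ℝ) - p.2) * p.1 - ((q.1 : ℝ) - p.1) * p.2) VV (by
      have aux : ∀ y, 0 < cr p q y → ((q.2 : ℝ) - p.2) * (emb y).1 + (-((q.1 : ℝ) - p.1)) * (emb y).2
          < ((q.2 : ℝ) - p.2) * p.1 - ((q.1 : ℝ) - p.1) * p.2 := by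
        intro y hy
        have : (0 : ℝ) < (cr p q y : ℤ) := by exact_mod_cast hy
        simp only [cr] at this
        push_cast at this
        simp only [emb]
        linarith
      rintro _ ⟨y, ⟨i, rfl⟩ | ⟨i, rfl⟩, rfl⟩
      · exact aux _ (h i).1
      · exact aux _ (h i).2) _ ((mem_G z).1 hz)
  obtain ⟨r, hr⟩ := mem_affineSpan_pair_iff_exists_lineMap_eq.1 hl
  rw [← hr] at this
  simp only [AffineMap.lineMap_apply, emb, vsub_eq_sub, vadd_eq_add, Prod.fst_add, Prod.snd_add,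
    Prod.smul_fst, Prod.smul_snd, Prod.fst_sub, Prod.snd_sub, smul_eq_mul] at this
  linarith

lemma col_mem (p a b : ℤ × ℤ) (h : cr p a b = 0) (ha : a ≠ p) (l : AffineSubspace ℝ (ℝ × ℝ))
    (hp : emb p ∈ l) (hal : emb a ∈ l) : emb b ∈ l := by
  have h' : ((a.1 : ℝ) - p.1) * (b.2 - p.2) - (a.2 - p.2) * (b.1 - p.1) = 0 := by
    simp only [cr] at h; exact_mod_cast h
  have : ∃ s : ℝ, emb b = AffineMap.lineMap (emb p) (emb a) s := by
    by_cases h1 : a.1 = p.1
    · have h2 : a.2 ≠ p.2 := fun h2 => ha (Prod.ext h1 h2)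
      have h2' : (a.2 : ℝ) - p.2 ≠ 0 := sub_ne_zero.2 (by exact_mod_cast h2)
      have h1' : (a.1 : ℝ) = p.1 := by exact_mod_cast h1
      refine ⟨((b.2 : ℝ) - p.2) / (a.2 - p.2), ?_⟩
      ext <;> simp [AffineMap.lineMap_apply, emb] <;> field_simp
      · linear_combination -h'
      · ring
    · have h1' : (a.1 : ℝ) - p.1 ≠ 0 := sub_ne_zero.2 (by exact_mod_cast h1)
      refine ⟨((b.1 : ℝ) - p.1) / (a.1 - p.1), ?_⟩
      ext <;> simp [AffineMap.lineMap_apply, emb] <;> field_simp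
      · ring
      · linear_combination h'
  obtain ⟨s, hs⟩ := this
  rw [hs]
  exact AffineMap.lineMap_mem s hp hal

open Classical in
lemma xray_remove (C : Fin 7 → ℤ × ℤ) (hC : Function.Injective C) (hG : ∀ i, C i ∈ G)
    (l : AffineSubspace ℝ (ℝ × ℝ)) :
    xray (G \ Finset.univ.image C) l = (G.filter (fun z => emb z ∈ l)).card -
      (Finset.univ.filter (fun i => emb (C i) ∈ l)).card := by
  have h1 : {z : ℤ × ℤ | z ∈ G \ Finset.univ.image C ∧ emb z ∈ l} =
      ((G.filter (fun z => emb z ∈ l) \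
        (Finset.univ.filter (fun i => emb (C i) ∈ l)).image C : Finset (ℤ × ℤ)) : Set (ℤ × ℤ)) := by
    ext z
    simp only [Finset.mem_sdiff, Finset.mem_image, Finset.mem_univ, true_and, Set.mem_setOf_eq,
      Finset.coe_sdiff, Finset.coe_filter, Finset.coe_image, Set.mem_diff, Set.mem_image]
    constructor
    · rintro ⟨⟨h1, h2⟩, h3⟩
      exact ⟨⟨h1, h3⟩, fun ⟨i, _, hi⟩ => h2 ⟨i, hi⟩⟩
    · rintro ⟨⟨h1, h3⟩, h2⟩
      exact ⟨⟨h1, fun ⟨i, hi⟩ => h2 ⟨i, hi ▸ h3, hi⟩⟩, h3⟩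
  rw [xray, h1, Set.ncard_coe_finset, Finset.card_sdiff_of_subset,
    Finset.card_image_of_injective _ hC]
  intro z hz
  obtain ⟨i, hi, rfl⟩ := Finset.mem_image.1 hz
  exact Finset.mem_filter.2 ⟨hG i, (Finset.mem_filter.1 hi).2⟩

theorem result :
    ∃ P : Finset (ℤ × ℤ), P.card = 7 ∧
      ∃ F₁ F₂ : Finset (ℤ × ℤ), F₁ ≠ F₂ ∧
        IsConvexLatticeSet F₁ ∧ IsConvexLatticeSet F₂ ∧
        MissesLines P F₁ ∧ MissesLines P F₂ ∧
        ∀ p ∈ P, ∀ l : AffineSubspace ℝ (ℝ × ℝ), Module.finrank ℝ l.direction = 1 → emb p ∈ l →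
          xray F₁ l = xray F₂ l := by
  classical
  have hm : ∀ F : Finset (ℤ × ℤ), F ⊆ G → MissesLines (Finset.univ.image PP) F := by
    intro F hF p hp q hq hpq z hz
    obtain ⟨k, -, rfl⟩ := Finset.mem_image.1 hp
    obtain ⟨m, -, rfl⟩ := Finset.mem_image.1 hq
    rcases side k m (fun h => hpq (by rw [h])) with h | h
    · exact miss _ _ h z (hF hz)
    · rw [Set.pair_comm]; exact miss _ _ h z (hF hz)
  refine ⟨Finset.univ.image PP, by rw [Finset.card_image_of_injective _ P_inj]; simp,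
    G \ Finset.univ.image BB, G \ Finset.univ.image AA, ?_, ?_, ?_, hm _ Finset.sdiff_subset,
    hm _ Finset.sdiff_subset, ?_⟩
  · intro h
    have h1 : AA 0 ∈ G \ Finset.univ.image BB := by
      refine Finset.mem_sdiff.2 ⟨A_mem 0, fun h2 => ?_⟩
      obtain ⟨j, -, hj⟩ := Finset.mem_image.1 h2
      exact AB_ne 0 j hj.symm
    rw [h] at h1
    exact (Finset.mem_sdiff.1 h1).2 (Finset.mem_image.2 ⟨0, Finset.mem_univ _, rfl⟩)
  · apply conv_remove BB fB
    rintro i _ (⟨j, rfl⟩ | ⟨j, rfl⟩)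
    · exact Or.inr (expB i j).2
    · by_cases h : j = i
      · exact Or.inl (by rw [h])
      · exact Or.inr ((expB i j).1 h)
  · apply conv_remove AA fA
    rintro i _ (⟨j, rfl⟩ | ⟨j, rfl⟩)
    · by_cases h : j = i
      · exact Or.inl (by rw [h])
      · exact Or.inr ((expA i j).1 h)
    · exact Or.inr (expA i j).2
  · intro p hp l _ hl
    obtain ⟨k, -, rfl⟩ := Finset.mem_image.1 hp
    rw [xray_remove BB B_inj B_mem, xray_remove AA A_inj A_mem]
    congr 1
    symm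
    apply Finset.card_equiv (Equiv.addRight k)
    intro i
    simp only [Finset.mem_filter, Finset.mem_univ, true_and, Equiv.coe_addRight]
    obtain ⟨h1, h2, h3⟩ := col k i
    constructor
    · exact col_mem _ _ _ h1 h2 l hl
    · refine col_mem _ _ _ ?_ h3 l hl
      simp only [cr] at h1 ⊢
      linarith

end Pool.Agent.Results.MP_259ac5_co.SevenPoints
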